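import Pool.Agent.helper17.EXT.Spec

/-!
# Project EXT, row PCS: classification of the pairs of long root vectors
-/

set_option autoImplicit false

open Finset

namespace Pool.Agent.EXT

open Pool.Agent.EXC

/-- every long root vector is a nonzero fixed multiple of `G (E th)` -/
theorem PCS_std (hRTF : RTF_stmt) (hWST : WST_stmt) (hWPS : WPS_stmt) (K : Type) [Field K] (τ : K ≃+* K)
    (hτ : ∀ x, τ (τ x) = x) (a : Lm C6 K) (ha : ExS τ a) :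
    ∃ G ∈ GS τ, ∃ c : K, τ c = c ∧ c ≠ 0 ∧ a = c • G (E C6 th) := by
  obtain ⟨g, hg, β, hβ, c, hτc, hc, rfl⟩ := ha
  have hth : LR th := hRTF.2.2.2.2.2.2.2.2.2.2.2.2.2.1
  have hW : WS (β, β) (th, th) := hWST.1 β β th th hβ hβ hth hth (by rw [hβ.1, hth.1])
  obtain ⟨g1, hg1, s, s', hs, _, h1, _⟩ := hWPS K τ hτ β β th th hβ.1 hβ.1 hW
  refine ⟨g * g1⁻¹, mul_mem hg (inv_mem hg1), c * (s : K), ?_, ?_, ?_⟩
  · rcases hs with rfl | rfl <;> simp [hτc]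
  · refine mul_ne_zero hc ?_
    rcases hs with rfl | rfl <;> simp
  · have h2 : (E C6 β : Lm C6 K) = (s : K) • g1⁻¹ (E C6 th) := by
      rw [← map_smul, ← h1, ← LinearEquiv.mul_apply, inv_mul_cancel]
      rfl
    rw [LinearEquiv.mul_apply, mul_smul, ← map_smul g (s : K), ← h2]

theorem PCS (hRTF : RTF_stmt) (hWST : WST_stmt) (hWPS : WPS_stmt) (hESF : ESF_stmt) (hYSS : YSS_stmt) : PCS_stmt := by
  intro K _ τ hτ a b ha hb
  have _ := hESF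
  obtain ⟨G, hG, c1, hτ1, hc1, rfl⟩ := PCS_std hRTF hWST hWPS K τ hτ a ha
  obtain ⟨G', hG', c2, hτ2, hc2, rfl⟩ := PCS_std hRTF hWST hWPS K τ hτ b hb
  have hth : LR th := hRTF.2.2.2.2.2.2.2.2.2.2.2.2.2.1
  obtain ⟨u, hu, huU, β', hβ', c, hτc, hc, h⟩ := hYSS K τ hτ (G⁻¹ * G') (mul_mem (inv_mem hG) hG') th hth
  have hf := PCL_fix C6 K f_ACT 1 th ![0, 2, 3, 4, 5] f_DE6.2 u⁻¹ (inv_mem huU)
  have hab := ip_abs_le (C := C6) hth.1 hβ'.1
  refine ⟨ip C6 th β', hab.1, hab.2, u⁻¹ * G⁻¹, mul_mem (inv_mem hu) (inv_mem hG), β', hβ', rfl, c1, c2 * c, hτ1,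
    by rw [map_mul, hτ2, hτc], hc1, mul_ne_zero hc2 hc, ?_, ?_⟩
  · have h1 : G⁻¹ (G (E C6 th)) = (E C6 th : Lm C6 K) := by
      rw [← LinearEquiv.mul_apply, inv_mul_cancel]
      rfl
    rw [map_smul, LinearEquiv.mul_apply, h1, hf]
  · have h1 : u⁻¹ (u (E C6 β')) = (E C6 β' : Lm C6 K) := by
      rw [← LinearEquiv.mul_apply, inv_mul_cancel]
      rfl
    rw [map_smul, LinearEquiv.mul_apply, ← LinearEquiv.mul_apply G⁻¹ G', h, map_smul, h1, smul_smul]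

end Pool.Agent.EXT
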